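import Pool.Agent.Helper18.CL.Defs

/-!
# Norms from `F[X] / (X ^ ℓ - a)`: the root, and extension of the field
-/

set_option autoImplicit false

namespace Pool.Agent.Helper60.CL

open Polynomial Module Pool.Agent.Helper18.CL

theorem norm_of_basis {R S R' S' ι : Type*} [CommRing R] [CommRing S] [Algebra R S] [CommRing R']
    [CommRing S'] [Algebra R' S'] [Fintype ι] [DecidableEq ι] (b : Basis ι R S)
    (b' : Basis ι R' S') (f : R →+* R') (g : S →+* S') (hg : ∀ r s, g (r • s) = f r • g s)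
    (hb : ∀ i, g (b i) = b' i) (e : S) : Algebra.norm R' (g e) = f (Algebra.norm R e) := by
  have hr : ∀ y : S, ∀ i, b'.repr (g y) i = f (b.repr y i) := by
    intro y i
    conv_lhs => rw [← b.sum_repr y]
    rw [map_sum, map_sum, Finsupp.finsetSum_apply]
    rw [Finset.sum_eq_single i]
    · rw [hg, hb, map_smul, Finsupp.smul_apply, b'.repr_self, Finsupp.single_eq_same,
        smul_eq_mul, mul_one]
    · intro k _ hk
      rw [hg, hb, map_smul, Finsupp.smul_apply, b'.repr_self,
        Finsupp.single_eq_of_ne hk.symm, smul_zero]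
    · intro h
      exact absurd (Finset.mem_univ i) h
  rw [Algebra.norm_eq_matrix_det b, Algebra.norm_eq_matrix_det b', RingHom.map_det]
  congr 1
  ext i j
  rw [RingHom.mapMatrix_apply, Matrix.map_apply, Algebra.leftMulMatrix_eq_repr_mul,
    Algebra.leftMulMatrix_eq_repr_mul, ← hr, map_mul g, hb]

theorem isNm_map {F E : Type} [Field F] [Field E] [Algebra F E] {l : ℕ} (hl : l ≠ 0) {a b : F}
    (h : IsNm l a b) : IsNm l (algebraMap F E a) (algebraMap F E b) := by
  obtain ⟨e, he⟩ := h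
  have hmo : (X ^ l - C a : F[X]).Monic := monic_X_pow_sub_C a hl
  have hmo' : (X ^ l - C (algebraMap F E a) : E[X]).Monic := monic_X_pow_sub_C _ hl
  have hd : (X ^ l - C a : F[X]).natDegree = l := natDegree_X_pow_sub_C
  have hd' : (X ^ l - C (algebraMap F E a) : E[X]).natDegree = l := natDegree_X_pow_sub_C
  have hmap : (X ^ l - C (algebraMap F E a) : E[X]) = (X ^ l - C a : F[X]).map (algebraMap F E) := by
    simp
  let g : AdjoinRoot (X ^ l - C a : F[X]) →+* AdjoinRoot (X ^ l - C (algebraMap F E a) : E[X]) :=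
    AdjoinRoot.map (algebraMap F E) _ _ (dvd_of_eq hmap)
  have hgr : g (AdjoinRoot.root _) = AdjoinRoot.root _ := AdjoinRoot.map_root _ _ _ _
  let pb := AdjoinRoot.powerBasis' hmo
  let pb' := AdjoinRoot.powerBasis' hmo'
  have hdim : pb.dim = pb'.dim := by
    rw [AdjoinRoot.powerBasis'_dim, AdjoinRoot.powerBasis'_dim, hd, hd']
  refine ⟨g e, ?_⟩
  rw [← he]
  refine norm_of_basis pb.basis (pb'.basis.reindex (finCongr hdim.symm)) (algebraMap F E) g ?_ ?_ e
  · intro r s
    rw [Algebra.smul_def, map_mul, Algebra.smul_def]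
    congr 1
    rw [AdjoinRoot.algebraMap_eq, AdjoinRoot.algebraMap_eq]
    exact AdjoinRoot.map_of _ _ _ _ r
  · intro i
    rw [Basis.reindex_apply, PowerBasis.coe_basis, PowerBasis.coe_basis, map_pow]
    congr 1

theorem isNm_self {F : Type} [Field F] {l : ℕ} (hl : l ≠ 0) (a : F) :
    IsNm l a ((-1) ^ (l + 1) * a) := by
  have hmo : (X ^ l - C a : F[X]).Monic := monic_X_pow_sub_C a hl
  refine ⟨AdjoinRoot.root _, ?_⟩
  have h1 := Algebra.PowerBasis.norm_gen_eq_coeff_zero_minpoly (AdjoinRoot.powerBasis hmo.ne_zero)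
  rw [AdjoinRoot.minpoly_powerBasis_gen_of_monic hmo, AdjoinRoot.powerBasis_gen,
    AdjoinRoot.powerBasis_dim, natDegree_X_pow_sub_C] at h1
  rw [h1, coeff_sub, coeff_C_zero, coeff_X_pow, if_neg (Ne.symm hl), zero_sub, pow_succ]
  ring

end Pool.Agent.Helper60.CL
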